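import Pool.Agent.H72.UZ.TarZ

/-! Q1: the new system: sets in the ground model, the relations. -/

set_option linter.unusedVariables false

open Ordinal Order Set
open scoped ZFSet

namespace SE.UZ

open SF

/-- the set of the sets with the property `P` -/
theorem stf_eq {P : V → Prop} {X : V} (h : ∀ x, x ∈ X ↔ P x) : stf P = X := by
  have h0 : ∃ X : V, ∀ x, x ∈ X ↔ P x := ⟨X, h⟩
  unfold stf
  rw [dif_pos h0]
  ext x
  rw [Classical.choose_spec h0 x, h x]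

/-- Q1 -/
theorem pf_Q1 (hQ1a : T_Q1a) (hQ1b : T_Q1b) (hQ1c : T_Q1c) : T_Q1 := by
  rintro D κ b am ok c rfl
  obtain ⟨X, Y, Z, nX, nY, nZ, hX, hY, hZ, nU⟩ := hQ1a D κ b am ok
  obtain ⟨X', nX', hX', nT⟩ := hQ1b D κ b am ok
  obtain ⟨Q, nQ, hQ⟩ := hQ1c D κ b am ok
  have eO : (b.Pr D κ).Ob = X := stf_eq hX
  have eU : (b.Pr D κ).U = resS X fun T => b.ut κ T := by
    show resS (stf (b.Tw D κ)) (fun T => b.ut κ T) = _
    rw [stf_eq hX]
  have eL : (b.Pr D κ).le = Y := stf_eq hY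
  have eR : (b.Pr D κ).Rc = Z := stf_eq hZ
  have eT : (b.Pr D κ).tr = resS X' fun z => b.tT κ (fst z) (snd z) := by
    show resS (stf _) (fun z => b.tT κ (fst z) (snd z)) = _
    rw [stf_eq hX']
  have eS : (b.Pr D κ).Sc = Q := stf_eq hQ
  refine ⟨⟨?_, ?_, ?_, ?_, ?_, ?_⟩, ?_, ?_, ?_, ?_, ?_, ?_⟩
  · rw [eO]; exact nX
  · rw [eU]; exact nU
  · rw [eL]; exact nY
  · rw [eR]; exact nZ
  · rw [eT]; exact nT
  · rw [eS]; exact nQ
  · intro T
    rw [eO]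
    exact hX T
  · intro T hT
    unfold BS.u
    rw [eU, app_resS ((hX T).2 hT)]
  · intro C T
    unfold BS.Le
    rw [eL, hY]
    constructor
    · rintro ⟨C', T', h1, h2⟩
      obtain ⟨rfl, rfl⟩ := ZFSet.pair_inj.1 h2
      exact h1
    · intro h
      exact ⟨C, T, h, rfl⟩
  · intro C T
    unfold BS.Ri
    rw [eR, hZ]
    constructor
    · rintro ⟨C', T', h1, h2, h3⟩
      obtain ⟨rfl, rfl⟩ := ZFSet.pair_inj.1 h3
      exact ⟨h1, h2⟩
    · rintro ⟨h1, h2⟩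
      exact ⟨C, T, h1, h2, rfl⟩
  · intro T hT π ρ' hi
    unfold BS.T
    rw [eT, app_resS ((hX' _).2 ⟨π, T, ρ', hT, hi, rfl⟩), fst_pair, snd_pair]
  · intro z
    rw [eS]
    exact hQ z

end SE.UZ
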