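import Pool.Agent.H75.UZ.TarKO

/-! KO6: the section of a `Π¹₁` set has a least element (Kondo, main point). -/

set_option linter.unusedVariables false

open Ordinal Order Set
open scoped ZFSet

namespace SE.UZ

open SF CAA

/-- the collapse of a relation is definable -/
theorem ko6_cps : Dfb ZFm (fun _ v => Cps (v 0) (v 1) (v 2)) := by
  have h1 : Dfb ZFm (fun _ v => v 0 ∈ app (v 4) (v 1) ↔
      ∃ z ∈ v 2, ZFSet.pair z (v 1) ∈ v 3 ∧ v 0 = app (v 4) z) := by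
    refine (Dfb.mem (Tm.var 0) (Tm.app (Tm.var 4) (Tm.var 1))).iff ?_
    exact (Dfb.bex (R := fun _ v => ZFSet.pair (v 0) (v 2) ∈ v 4 ∧ v 1 = app (v 5) (v 0)) ktr_zfm
      (Tm.var 2) ((Dfb.pairMem (Tm.var 0) (Tm.var 2) (Tm.var 4)).and
        (Dfb.eq (Tm.var 1) (Tm.app (Tm.var 5) (Tm.var 0))))).congr fun M k v hv => Iff.rfl
  have h2 : Dfb ZFm (fun M v => ∀ m ∈ v 0, ∀ y, M y → (y ∈ app (v 2) m ↔
      ∃ z ∈ v 0, ZFSet.pair z m ∈ v 1 ∧ y = app (v 2) z)) := by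
    refine (Dfb.ball (R := fun M v => ∀ y, M y → (y ∈ app (v 3) (v 0) ↔
      ∃ z ∈ v 1, ZFSet.pair z (v 0) ∈ v 2 ∧ y = app (v 3) z)) ktr_zfm (Tm.var 0) ?_).congr
      fun M k v hv => Iff.rfl
    exact (h1.all).congr fun M k v hv => Iff.rfl
  refine ((Dfb.svl (Tm.var 2)).and ((Dfb.eq (Tm.dm (Tm.var 2)) (Tm.var 0)).and h2)).congr
    fun M k v hv => ?_
  have ta : ∀ m, M m → M (app (v 2) m) := fun m hm =>
    (Tm.app (Tm.var 0) (Tm.var 1)).1 M k (cons (v 2) (cons m v)) ((hv.cons hm).cons (hv 2))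
  constructor
  · rintro ⟨a1, a2, a3⟩
    refine ⟨a1, a2, fun m hm y => ?_⟩
    have mm := k.trans _ (hv 0) m hm
    constructor
    · intro hy
      exact (a3 m hm y (k.trans _ (ta m mm) y hy)).1 hy
    · rintro ⟨z, hz, h3, rfl⟩
      exact (a3 m hm _ (ta z (k.trans _ (hv 0) z hz))).2 ⟨z, hz, h3, rfl⟩
  · rintro ⟨a1, a2, a3⟩
    exact ⟨a1, a2, fun m hm y _ => a3 m hm y⟩

/-- the values are definable -/
theorem ko6_kv {f0 f1 f2 f3 f4 : (V → Prop) → (ℕ → V) → V} (h0 : Tm ZFm f0) (h1 : Tm ZFm f1)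
    (h2 : Tm ZFm f2) (h3 : Tm ZFm f3) (h4 : Tm ZFm f4) :
    Tm ZFm (fun M v => Kv (f0 M v) (f1 M v) (f2 M v) (f3 M v) (f4 M v)) :=
  Tm.sel (Dfb.eq (Tm.fst (Tm.app h0 h4)) Tm.empty) (Tm.app h3 (Tm.snd (Tm.app h0 h4)))
    (Tm.app h1 (Tm.app h2 (Tm.snd (Tm.app h0 h4))))

/-- the value for the question `h` -/
noncomputable def Kq (j p h : V) : V :=
  sel (fst h = ∅) (app (snd p) (snd h)) (app j (app (fst p) (snd h)))

theorem kv_eq (e j y c n : V) : Kv e j y c n = Kq j (ZFSet.pair y c) (app e n) := by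
  unfold Kv Kq
  rw [fst_pair, snd_pair]

theorem kq0 (j p s : V) : Kq j p (ZFSet.pair ∅ s) = app (snd p) s := by
  unfold Kq
  rw [fst_pair, snd_pair, sel_pos rfl]

theorem nS1_ne : (nS 1 : V) ≠ ∅ := by
  rw [← nS_zero]
  intro h
  exact absurd (nS_inj.1 h) (by norm_num)

theorem kq1 (j p s : V) : Kq j p (ZFSet.pair (nS 1) s) = app j (app (fst p) s) := by
  unfold Kq
  rw [fst_pair, snd_pair, sel_neg nS1_ne]

/-- outside of the domain -/
theorem app_out {f x : V} (h : x ∉ dm f) : app f x = ∅ := by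
  unfold app
  have h1 : ((⋃₀ (⋃₀ f : ZFSet) : ZFSet).sep fun y => ZFSet.pair x y ∈ f) = ∅ := by
    ext z
    rw [ZFSet.mem_sep]
    constructor
    · rintro ⟨-, hz⟩
      exact absurd (mem_dm.2 ⟨z, hz⟩) h
    · intro hz
      exact absurd hz (ZFSet.notMem_empty _)
  rw [h1]
  ext z
  rw [ZFSet.mem_sUnion]
  constructor
  · rintro ⟨w, hw, -⟩
    exact absurd hw (ZFSet.notMem_empty _)
  · intro hz
    exact absurd hz (ZFSet.notMem_empty _)

/-- **KO6.** -/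
theorem t_ko6 (hA : T_AA) (hF : T_AF) (hG : T_AG) (hI : T_AI) (hC : T_KC) (h2 : T_KO2) (h3 : T_KO3)
    (h4 : T_KO4) (hKI : T_KI) (hH : T_AH) : T_KO6 := by
  obtain ⟨K1, K2, K3, K4, K5, -⟩ := h3
  intro W kk e j we wj ke a x wa ra wx rx ⟨y0, c0, hm0⟩
  have k : ZFm W := kk.toZFCm.toZFm
  have me := k.mempty
  have hft : Tm ZFm (fun _ _ => hf) := hA.2.2.2.2.2.2.2.1
  have whf : W hf := hft.1 W k (fun _ => ∅) fun _ => me
  have h0f : (∅ : V) ∈ hf := by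
    have := hA.2.1 0
    rwa [nS_zero] at this
  -- terms for the tree
  have tTO : ∀ {f g h : (V → Prop) → (ℕ → V) → V}, Tm ZFm f → Tm ZFm g → Tm ZFm h →
      Tm ZFm (fun M v => TO (f M v) (prl (g M v) (h M v))) := fun hf hg hh =>
    Tm.at2 (F := fun _ x y => TO x y) hC.1 hf (Tm.at2 (F := fun _ x y => prl x y) hI.2.2.1 hg hh)
  have dcp : ∀ {f g h l : (V → Prop) → (ℕ → V) → V}, Tm ZFm f → Tm ZFm g → Tm ZFm h →
      Tm ZFm l → Dfb ZFm (fun M v => Cps (TO (f M v) (prl (g M v) (h M v))) EO (l M v)) :=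
    fun hf hg hh hl => Dfb.at3 (P := fun _ x y z => Cps x y z) ko6_cps (tTO hf hg hh) hC.2.1 hl
  -- the set `A` of the reals
  obtain ⟨Y, wY, hY⟩ := kk.pow (ZFSet.prod om hf)
    ((Tm.prod Tm.om hft).1 W k (fun _ => ∅) fun _ => me)
  have tA : Tm ZFm (fun M v => (v 2).sep fun y => Rl y ∧
      ∃ c, M c ∧ Cps (TO (v 0) (prl (v 1) y)) EO c) := by
    refine Tm.sep (R := fun M v => Rl (v 0) ∧ ∃ c, M c ∧ Cps (TO (v 1) (prl (v 2) (v 0))) EO c)
      (hI.1.and ?_) (Tm.var 2)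
    exact (Dfb.ex (R := fun _ v => Cps (TO (v 2) (prl (v 3) (v 1))) EO (v 0))
      (dcp (Tm.var 2) (Tm.var 3) (Tm.var 1) (Tm.var 0))).congr fun M k v hv => Iff.rfl
  obtain ⟨A, wA, hAm⟩ : ∃ A, W A ∧ ∀ y, y ∈ A ↔ W y ∧ Rl y ∧
      ∃ c, W c ∧ Cps (TO a (prl x y)) EO c := by
    refine ⟨_, tA.1 W k (cons a (cons x (cons Y fun _ => ∅)))
      (((In.cons (fun _ => me) wY).cons wx).cons wa), fun y => ?_⟩
    rw [ZFSet.mem_sep]
    simp only [cons_zero, cons_succ]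
    constructor
    · rintro ⟨h1, h2, h3⟩
      exact ⟨k.trans _ wY y h1, h2, h3⟩
    · rintro ⟨h1, h2, h3⟩
      exact ⟨hY y h1 h2.1, h2, h3⟩
  -- collapses for the elements of `A`
  obtain ⟨B, wB, hB⟩ : ∃ B, W B ∧ ∀ y ∈ A, ∃ c ∈ B, Cps (TO a (prl x y)) EO c := by
    obtain ⟨φ, hφ⟩ := dcp (f := fun _ v => v 2) (g := fun _ v => v 3) (h := fun _ v => v 1)
      (l := fun _ v => v 0) (Tm.var 2) (Tm.var 3) (Tm.var 1) (Tm.var 0)
    have hv : In W (cons a (cons x fun _ => ∅)) := ((In.cons (fun _ => me) wx).cons wa)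
    obtain ⟨B, wB, hB⟩ := k.coll φ (cons a (cons x fun _ => ∅)) A hv wA (by
      intro y hy
      obtain ⟨wy, ry, c, wc, hc⟩ := (hAm y).1 hy
      exact ⟨c, wc, (hφ W k _ ((hv.cons wy).cons wc)).2 hc⟩)
    refine ⟨B, wB, fun y hy => ?_⟩
    obtain ⟨c, hc, hs⟩ := hB y hy
    exact ⟨c, hc, (hφ W k _ ((hv.cons (k.trans _ wA y hy)).cons (k.trans _ wB c hc))).1 hs⟩
  -- the pairs
  have tP : Tm ZFm (fun _ v => (ZFSet.prod (v 2) (v 3)).sep fun z =>
      Cps (TO (v 0) (prl (v 1) (fst z))) EO (snd z)) :=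
    Tm.sep (R := fun _ v => Cps (TO (v 1) (prl (v 2) (fst (v 0)))) EO (snd (v 0)))
      (dcp (Tm.var 1) (Tm.var 2) (Tm.fst (Tm.var 0)) (Tm.snd (Tm.var 0)))
      (Tm.prod (Tm.var 2) (Tm.var 3))
  obtain ⟨P, wP, hP⟩ : ∃ P, W P ∧ ∀ p, p ∈ P ↔ (∃ y ∈ A, ∃ c ∈ B, p = ZFSet.pair y c ∧
      Cps (TO a (prl x y)) EO c) := by
    refine ⟨_, tP.1 W k (cons a (cons x (cons A (cons B fun _ => ∅))))
      ((((In.cons (fun _ => me) wB).cons wA).cons wx).cons wa), fun p => ?_⟩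
    rw [ZFSet.mem_sep, ZFSet.mem_prod]
    simp only [cons_zero, cons_succ]
    constructor
    · rintro ⟨⟨y, hy, c, hc, rfl⟩, h⟩
      rw [fst_pair, snd_pair] at h
      exact ⟨y, hy, c, hc, rfl, h⟩
    · rintro ⟨y, hy, c, hc, rfl, h⟩
      refine ⟨⟨y, hy, c, hc, rfl⟩, ?_⟩
      rw [fst_pair, snd_pair]
      exact h
  have tK : Tm ZFm (fun _ v => resS (ZFSet.prod (v 2) om) fun z =>
      Kv (v 0) (v 1) (fst (fst z)) (snd (fst z)) (snd z)) :=
    Tm.resS (g := fun _ u => Kv (u 1) (u 2) (fst (fst (u 0))) (snd (fst (u 0))) (snd (u 0)))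
      (Tm.prod (Tm.var 2) Tm.om) (ko6_kv (Tm.var 1) (Tm.var 2) (Tm.fst (Tm.fst (Tm.var 0)))
        (Tm.snd (Tm.fst (Tm.var 0))) (Tm.snd (Tm.var 0)))
  obtain ⟨κ, wκ, hκ⟩ : ∃ κ, W κ ∧ ∀ p ∈ P, ∀ n : ℕ,
      app κ (ZFSet.pair p (nS n)) = Kq j p (app e (nS n)) := by
    refine ⟨_, tK.1 W k (cons e (cons j (cons P fun _ => ∅)))
      (((In.cons (fun _ => me) wP).cons wj).cons we), fun p hp n => ?_⟩
    simp only [cons_zero, cons_succ]
    rw [app_resS (ZFSet.pair_mem_prod.2 ⟨hp, nS_mem_om n⟩), fst_pair, snd_pair, kv_eq]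
    obtain ⟨y, hy, c, hc, rfl, h⟩ := (hP p).1 hp
    rw [fst_pair, snd_pair]
  -- values of reals
  have rv : ∀ y, Rl y → ∀ s, app y s ∈ hf := by
    intro y ry s
    by_cases hs : s ∈ om
    · exact app_mem ry hs
    · rw [app_out]
      · exact h0f
      · rw [(hG.1 y ry).2.1]
        exact hs
  have pm : ∀ p ∈ P, Mm W a x (fst p) (snd p) := by
    intro p hp
    obtain ⟨y, hy, c, hc, rfl, h⟩ := (hP p).1 hp
    rw [fst_pair, snd_pair]
    obtain ⟨wy, ry, -⟩ := (hAm y).1 hy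
    exact ⟨wy, ry, k.trans _ wB c hc, h⟩
  have ord : ∀ p ∈ P, ∀ h, IsOrd (Kq j p h) := by
    intro p hp h
    unfold Kq
    by_cases h1 : fst h = ∅
    · rw [sel_pos h1]
      exact K1 _ _ (pm p hp).cp _
    · rw [sel_neg h1]
      obtain ⟨n, hn⟩ := mem_om.1 (app_mem ke.j.1 (rv _ (pm p hp).ry (snd h)))
      rw [hn]
      exact ⟨n, rfl⟩
  have pex : ∀ y c, Mm W a x y c → ∃ c', ZFSet.pair y c' ∈ P ∧ Mm W a x y c' ∧
      ∀ s, app c' s = app c s := by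
    intro y c hm
    have hy : y ∈ A := (hAm y).2 ⟨hm.wy, hm.ry, c, hm.wc, hm.cp⟩
    obtain ⟨c', hc', hc⟩ := hB y hy
    exact ⟨c', (hP _).2 ⟨y, hy, c', hc', rfl, hc⟩, ⟨hm.wy, hm.ry, k.trans _ wB _ hc', hc⟩,
      K4 _ _ _ hc hm.cp⟩
  have Pne : P.Nonempty := by
    obtain ⟨c', h, -⟩ := pex _ _ hm0
    exact ⟨_, h⟩
  -- the leftmost branch
  obtain ⟨q, wq, q1, q2⟩ := h2 W k P κ wP wκ Pne (fun p hp n => by
    rw [hκ p hp n]
    exact ord p hp _)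
  -- choice of the indices
  choose! ν hν using ke.onto
  have ag : ∀ (m n : ℕ) (b s : V), b ∈ hf → s ∈ hf → ∃ p ∈ P,
      (∀ i < m, app q (nS (ν (ZFSet.pair (nS 1) (nS i)))) = app j (app (fst p) (nS i))) ∧
      app q (nS (ν (ZFSet.pair ∅ b))) = app (snd p) b ∧
      app q (nS (ν (ZFSet.pair ∅ s))) = app (snd p) s ∧
      app q (nS n) = Kq j p (app e (nS n)) := by
    intro m n b s hb hs
    obtain ⟨p, hp, hq⟩ := q1 ((∑ i ∈ Finset.range m, ν (ZFSet.pair (nS 1) (nS i))) +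
      ν (ZFSet.pair ∅ b) + ν (ZFSet.pair ∅ s) + n)
    have hq' : ∀ h ∈ hf, ν h ≤ ((∑ i ∈ Finset.range m, ν (ZFSet.pair (nS 1) (nS i))) +
        ν (ZFSet.pair ∅ b) + ν (ZFSet.pair ∅ s) + n) → app q (nS (ν h)) = Kq j p h := by
      intro h hh hle
      rw [hq _ hle, hκ p hp, hν h hh]
    have hpr := hA.2.2.2.1
    refine ⟨p, hp, fun i hi => ?_, ?_, ?_, ?_⟩
    · have h5 : ν (ZFSet.pair (nS 1) (nS i)) ≤
          ∑ i ∈ Finset.range m, ν (ZFSet.pair (nS 1) (nS i)) :=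
        Finset.single_le_sum (f := fun i => ν (ZFSet.pair (nS 1) (nS i))) (fun _ _ => Nat.zero_le _)
          (Finset.mem_range.2 hi)
      rw [hq' _ (hpr _ (hA.2.1 1) _ (hA.2.1 i)) (by omega), kq1]
    · rw [hq' _ (hpr _ h0f _ hb) (by omega), kq0]
    · rw [hq' _ (hpr _ h0f _ hs) (by omega), kq0]
    · rw [hq n (by omega), hκ p hp]
  -- the real
  have tY : Tm ZFm (fun _ v => resS om fun m => (⋃₀ (hf.sep fun h => ∃ n ∈ om,
      app (v 0) n = ZFSet.pair (nS 1) m ∧ app (v 1) h = app (v 2) n) : ZFSet)) := by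
    refine Tm.resS (g := fun _ u => (⋃₀ (hf.sep fun h => ∃ n ∈ om,
      app (u 1) n = ZFSet.pair (nS 1) (u 0) ∧ app (u 2) h = app (u 3) n) : ZFSet)) Tm.om
      (Tm.sUnion (Tm.sep (R := fun _ u => ∃ n ∈ om, app (u 2) n = ZFSet.pair (nS 1) (u 1) ∧
        app (u 3) (u 0) = app (u 4) n) ?_ hft))
    exact (Dfb.bex (R := fun _ u => app (u 3) (u 0) = ZFSet.pair (nS 1) (u 2) ∧
      app (u 4) (u 1) = app (u 5) (u 0)) ktr_zfm Tm.om
      ((Dfb.eq (Tm.app (Tm.var 3) (Tm.var 0)) (Tm.pair (Tm.nS 1) (Tm.var 2))).and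
        (Dfb.eq (Tm.app (Tm.var 4) (Tm.var 1)) (Tm.app (Tm.var 5) (Tm.var 0))))).congr
      fun M k v hv => Iff.rfl
  obtain ⟨y, wy, ry, hy⟩ : ∃ y, W y ∧ Rl y ∧ ∀ m : ℕ,
      app q (nS (ν (ZFSet.pair (nS 1) (nS m)))) = app j (app y (nS m)) := by
    have hset : ∀ (m : ℕ), ∃ p ∈ P, (hf.sep fun h => ∃ n ∈ om, app e n = ZFSet.pair (nS 1) (nS m) ∧
        app j h = app q n) = {app (fst p) (nS m)} ∧
        app q (nS (ν (ZFSet.pair (nS 1) (nS m)))) = app j (app (fst p) (nS m)) := by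
      intro m
      obtain ⟨p, hp, hp1, -⟩ := ag (m + 1) 0 ∅ ∅ h0f h0f
      refine ⟨p, hp, ?_, hp1 m (by omega)⟩
      ext h
      rw [ZFSet.mem_sep, ZFSet.mem_singleton]
      constructor
      · rintro ⟨hh, n, hn, h5, h6⟩
        obtain ⟨n, rfl⟩ := mem_om.1 hn
        obtain ⟨p', hp', hp1', -, -, hp4⟩ := ag (m + 1) n ∅ ∅ h0f h0f
        rw [h5, kq1, ← hp1' m (by omega), hp1 m (by omega)] at hp4
        rw [hp4] at h6
        exact ke.j.2 _ hh _ (rv _ (pm p hp).ry _) h6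
      · rintro rfl
        exact ⟨rv _ (pm p hp).ry _, _, nS_mem_om _,
          hν _ (hA.2.2.2.1 _ (hA.2.1 1) _ (hA.2.1 m)), (hp1 m (by omega)).symm⟩
    obtain ⟨r, v⟩ := hG.2.2.2.2.2 (fun m => (⋃₀ (hf.sep fun h => ∃ n ∈ om,
      app e n = ZFSet.pair (nS 1) m ∧ app j h = app q n) : ZFSet)) (fun m => by
        obtain ⟨p, hp, h5, h6⟩ := hset m
        show (⋃₀ (hf.sep fun h => ∃ n ∈ om, app e n = ZFSet.pair (nS 1) (nS m) ∧
          app j h = app q n) : ZFSet) ∈ hf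
        rw [h5, ZFSet.sUnion_singleton]
        exact rv _ (pm p hp).ry _)
    refine ⟨_, tY.1 W k (cons e (cons j (cons q fun _ => ∅)))
      (((In.cons (fun _ => me) wq).cons wj).cons we), r, fun m => ?_⟩
    obtain ⟨p, hp, h5, h6⟩ := hset m
    simp only [cons_zero, cons_succ]
    rw [v m, h5, ZFSet.sUnion_singleton, h6]
  have hyp : ∀ p ∈ P, ∀ m : ℕ, app q (nS (ν (ZFSet.pair (nS 1) (nS m)))) =
      app j (app (fst p) (nS m)) → app y (nS m) = app (fst p) (nS m) := by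
    intro p hp m h
    rw [hy m] at h
    exact ke.j.2 _ (rv _ ry _) _ (rv _ (pm p hp).ry _) h
  -- finite parts
  have hrs : ∀ p ∈ P, ∀ m : ℕ, (∀ i < m, app y (nS i) = app (fst p) (nS i)) →
      rs y (nS m) = rs (fst p) (nS m) := by
    intro p hp m h
    have ra1 := (hG.1 y ry).2.2.1 m
    have ra2 := (hG.1 (fst p) (pm p hp).ry).2.2.1 m
    have hsub := hF.2.2.2.2.2.2.1
    have e1 : ∀ l < m, app (rs y (nS m)) (nS l) = app (rs (fst p) (nS m)) (nS l) := by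
      intro l hl
      rw [ra1.2.2.2 l hl, ra2.2.2.2 l hl, h l hl]
    exact (hF.2.2.2.2.2.2.2.1 m _ m _ ra1.2.1 ra2.2.1 ((hsub m _ m _ ra1.2.1 ra2.2.1).2
      ⟨le_rfl, e1⟩)).trans (by
        exact ((hF.2.2.2.2.1 m _ ra2.2.1).2.2.2.2.1))
  -- the norms
  have tF : Tm ZFm (fun _ v => resS (TO (v 0) (prl (v 1) (v 2))) fun s => (⋃₀ (imS
      (om.sep fun n => app (v 3) n = ZFSet.pair ∅ s) fun n => app (v 4) n) : ZFSet)) := by
    refine Tm.resS (g := fun _ u => (⋃₀ (imS (om.sep fun n => app (u 4) n =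
      ZFSet.pair ∅ (u 0)) fun n => app (u 5) n) : ZFSet))
      (tTO (Tm.var 0) (Tm.var 1) (Tm.var 2)) ?_
    refine Tm.iUn (f := fun _ u => om.sep fun n => app (u 4) n = ZFSet.pair ∅ (u 0))
      (g := fun _ u => app (u 6) (u 0)) ?_ (Tm.app (Tm.var 6) (Tm.var 0))
    exact Tm.sep (R := fun _ u => app (u 5) (u 0) = ZFSet.pair ∅ (u 1))
      (Dfb.eq (Tm.app (Tm.var 5) (Tm.var 0)) (Tm.pair Tm.empty (Tm.var 1))) Tm.om
  obtain ⟨f, wf, sf, df, hf'⟩ : ∃ f, W f ∧ Svl f ∧ dm f = TO a (prl x y) ∧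
      ∀ s ∈ TO a (prl x y), app f s = app q (nS (ν (ZFSet.pair ∅ s))) := by
    refine ⟨_, tF.1 W k (cons a (cons x (cons y (cons e (cons q fun _ => ∅)))))
      (((((In.cons (fun _ => me) wq).cons we).cons wy).cons wx).cons wa), svl_resS _ _,
      dm_resS _ _, fun s hs => ?_⟩
    simp only [cons_zero, cons_succ]
    have hsf : s ∈ hf := (ZFSet.mem_sep.1 (ZFSet.mem_sep.1 hs).1).1
    rw [app_resS hs]
    have h5 : (imS (om.sep fun n => app e n = ZFSet.pair ∅ s) fun n => app q n) =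
        {app q (nS (ν (ZFSet.pair ∅ s)))} := by
      ext z
      rw [mem_imS, ZFSet.mem_singleton]
      constructor
      · rintro ⟨n, hn, rfl⟩
        obtain ⟨h6, h7⟩ := ZFSet.mem_sep.1 hn
        obtain ⟨n, rfl⟩ := mem_om.1 h6
        obtain ⟨p, hp, -, h8, -, h9⟩ := ag 0 n s s hsf hsf
        rw [h9, h7, kq0, h8]
      · rintro rfl
        exact ⟨_, ZFSet.mem_sep.2 ⟨nS_mem_om _, hν _ (hA.2.2.2.1 _ h0f _ hsf)⟩, rfl⟩
    rw [h5, ZFSet.sUnion_singleton]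
  have rf : Rkf (TO a (prl x y)) EO f := by
    refine ⟨sf, df, fun s hs => ?_, fun b hb s hs hbs => ?_⟩
    · have hsf : s ∈ hf := (ZFSet.mem_sep.1 (ZFSet.mem_sep.1 hs).1).1
      rw [hf' s hs]
      obtain ⟨p, hp, -, h8, -, -⟩ := ag 0 0 s s hsf hsf
      rw [h8]
      exact K1 _ _ (pm p hp).cp _
    · have hbf : b ∈ hf := (ZFSet.mem_sep.1 (ZFSet.mem_sep.1 hb).1).1
      have hsf : s ∈ hf := (ZFSet.mem_sep.1 (ZFSet.mem_sep.1 hs).1).1
      obtain ⟨m, hm⟩ := (ZFSet.mem_sep.1 (ZFSet.mem_sep.1 hb).1).2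
      obtain ⟨p, hp, h5, h6, h7, -⟩ := ag m 0 b s hbf hsf
      rw [hf' b hb, hf' s hs, h6, h7]
      have hr := hrs p hp m fun i hi => hyp p hp i (h5 i hi)
      have hb' : b ∈ TO a (prl x (fst p)) :=
        (h4.2.1 a x y x (fst p) m b ra rx ry rx (pm p hp).ry hm rfl hr.symm).2 hb
      have hs' : s ∈ TO a (prl x (fst p)) :=
        h4.1 a (prl x (fst p)) ra (hH.1 x _ rx (pm p hp).ry).1 b s hbs hb'
      exact (K3 _ _ (pm p hp).cp).lt b hb' s hs' hbs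
  have wT : W (TO a (prl x y)) := (tTO (Tm.var 0) (Tm.var 1) (Tm.var 2)).1 W k
    (cons a (cons x (cons y fun _ => ∅))) (((In.cons (fun _ => me) wy).cons wx).cons wa)
  have wE : W EO := hC.2.1.1 W k (fun _ => ∅) fun _ => me
  obtain ⟨c1, wc1, hc1⟩ := hKI W k _ _ f wT wE wf rf
  obtain ⟨c, hc, mc, -⟩ := pex y c1 ⟨wy, ry, wc1, hc1⟩
  -- the values of the branch
  have qe : ∀ n : ℕ, app q (nS n) = Kq j (ZFSet.pair y c) (app e (nS n)) := by
    have key : ∀ n : ℕ, ¬ app q (nS n) ∈ Kq j (ZFSet.pair y c) (app e (nS n)) := by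
      intro n hn
      have he : app e (nS n) ∈ hf := app_mem ke.fn (nS_mem_om n)
      have hs : snd (app e (nS n)) ∈ hf := by
        by_cases h : ∃ a b, app e (nS n) = ZFSet.pair a b
        · obtain ⟨t, s, h⟩ := h
          rw [h, snd_pair]
          rw [h] at he
          have h5 := hA.1 _ he (show ({t, s} : V) ∈ ZFSet.pair t s by simp [ZFSet.pair])
          exact hA.1 _ h5 (by simp)
        · rw [snd_eq_of_not h]
          exact h0f
      obtain ⟨p, hp, -, h5, -, h6⟩ := ag 0 n (snd (app e (nS n))) ∅ hs h0f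
      unfold Kq at hn h6
      rw [fst_pair, snd_pair] at hn
      by_cases h1 : fst (app e (nS n)) = ∅
      · rw [sel_pos h1] at hn h6
        by_cases h7 : snd (app e (nS n)) ∈ TO a (prl x y)
        · have h8 := K5 _ _ _ mc.cp rf (snd (app e (nS n))) hn
          rw [hf' _ h7, h5, ← h6] at h8
          exact ZFSet.mem_irrefl _ h8
        · rw [K2 _ _ mc.cp _ h7] at hn
          exact ZFSet.notMem_empty _ hn
      · rw [sel_neg h1] at hn h6
        by_cases h7 : snd (app e (nS n)) ∈ om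
        · obtain ⟨m, hm⟩ := mem_om.1 h7
          obtain ⟨p', hp', h8, -, -, h9⟩ := ag (m + 1) n ∅ ∅ h0f h0f
          unfold Kq at h9
          rw [sel_neg h1, hm, ← h8 m (by omega), hy m] at h9
          rw [hm, h9] at hn
          exact ZFSet.mem_irrefl _ hn
        · have h8 : app y (snd (app e (nS n))) = ∅ := app_out (by
            rw [(hG.1 y ry).2.1]; exact h7)
          have h9 : app (fst p) (snd (app e (nS n))) = ∅ := app_out (by
            rw [(hG.1 _ (pm p hp).ry).2.1]; exact h7)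
          rw [h6, h8, h9] at hn
          exact ZFSet.mem_irrefl _ hn
    rcases q2 _ hc with h | ⟨n, -, h⟩
    · intro n
      rw [h n, hκ _ hc]
    · rw [hκ _ hc] at h
      exact absurd h (key n)
  refine ⟨y, c, mc, fun y' c' hm' => ?_⟩
  obtain ⟨c'', hc'', mc'', e''⟩ := pex y' c' hm'
  have eK : ∀ n : ℕ, Kv e j y' c' (nS n) = Kq j (ZFSet.pair y' c'') (app e (nS n)) := by
    intro n
    rw [kv_eq]
    unfold Kq
    simp only [fst_pair, snd_pair, e'']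
  rcases q2 _ hc'' with h | ⟨n, h, hn⟩
  · left
    refine hG.2.2.1 y y' ry hm'.ry fun m => ?_
    have h5 := h (ν (ZFSet.pair (nS 1) (nS m)))
    rw [hκ _ hc'', hν _ (hA.2.2.2.1 _ (hA.2.1 1) _ (hA.2.1 m)), kq1] at h5
    have h6 := hyp _ hc'' m h5
    rw [fst_pair] at h6
    exact h6
  · right
    refine ⟨n, fun i hi => ?_, ?_⟩
    · rw [kv_eq, ← qe, h i hi, hκ _ hc'', eK]
    · rw [eK, kv_eq, ← qe, ← hκ _ hc'']
      exact hn

end SE.UZ
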